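import Pool.Agent.Helper95.RK.GoalsB
import Pool.Agent.Helper95.RK.Basics

/-! # RK packet NATE: naturality of the fields -/

open Complex Metric Set Filter Topology
open scoped ContDiff ComplexConjugate ComplexOrder Manifold Matrix

namespace Pool.Agent.Helper29.RK

open Pool.Agent.Helper95.Lin Pool.Agent.Helper16.Abund Pool.Agent.Helper10.SP
open Pool.Agent.Helper95.RK

namespace Nate

variable {b k : ℕ}

theorem swap8 (f : Fin b → Fin b → Fin k → Fin k → Fin b → Fin b → Fin k → Fin k → ℂ) :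
    ∑ a, ∑ c, ∑ p, ∑ i, ∑ d, ∑ e, ∑ r, ∑ q, f a c p i d e r q =
      ∑ d, ∑ e, ∑ r, ∑ q, ∑ a, ∑ c, ∑ p, ∑ i, f a c p i d e r q := by
  have h1 : ∀ (F : Fin b → Fin b → Fin k → Fin k → ℂ), ∑ a, ∑ c, ∑ p, ∑ i, F a c p i =
      ∑ u : Fin b × Fin b × Fin k × Fin k, F u.1 u.2.1 u.2.2.1 u.2.2.2 := by
    intro F
    simp only [Fintype.sum_prod_type]
  rw [h1, h1]
  simp_rw [h1]
  exact Finset.sum_comm

theorem contr (G : Matrix (Fin b) (Fin b) ℂ) (J : Matrix (Fin k) (Fin k) ℂ)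
    (M N : Matrix (Fin b) (Fin b) ℂ) (m n : Matrix (Fin k) (Fin k) ℂ)
    (hG : ∀ d e, ∑ a, ∑ c, M a c * (conj (G a d) * G c e) = N d e)
    (hJ : ∀ r q, ∑ p, ∑ i, m p i * (conj (J p r) * J i q) = n r q)
    (X' X : Fin b → Fin b → Fin k → Fin k → ℂ)
    (hX : ∀ a c p i, X' a c p i = ∑ d, ∑ e, ∑ r, ∑ q,
      (conj (G a d) * G c e) * (conj (J p r) * J i q) * X d e r q) :
    ∑ a, ∑ c, ∑ p, ∑ i, M a c * m p i * X' a c p i =
      ∑ d, ∑ e, ∑ r, ∑ q, N d e * n r q * X d e r q := by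
  simp only [hX, Finset.mul_sum]
  rw [swap8]
  refine Finset.sum_congr rfl fun d _ => Finset.sum_congr rfl fun e _ =>
    Finset.sum_congr rfl fun r _ => Finset.sum_congr rfl fun q _ => ?_
  rw [← hG, ← hJ]
  have h2 : ∀ a c p i, M a c * m p i * (conj (G a d) * G c e * (conj (J p r) * J i q) * X d e r q)
      = M a c * (conj (G a d) * G c e) * (m p i * (conj (J p r) * J i q)) * X d e r q := by
    intro a c p i
    ring
  simp only [h2, ← Finset.mul_sum, ← Finset.sum_mul]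

theorem swap3 {α β γ : Type} [Fintype α] [Fintype β] [Fintype γ] (f : α → β → γ → ℂ) :
    ∑ e, ∑ r, ∑ d, f e r d = ∑ d, ∑ e, ∑ r, f e r d := by
  rw [Finset.sum_congr rfl fun e _ => Finset.sum_comm]
  exact Finset.sum_comm

theorem swap4 {α β γ δ : Type} [Fintype α] [Fintype β] [Fintype γ] [Fintype δ]
    (f : δ → α → β → γ → ℂ) :
    ∑ i, ∑ a, ∑ c, ∑ p, f i a c p = ∑ a, ∑ c, ∑ p, ∑ i, f i a c p := by
  rw [Finset.sum_comm]
  refine Finset.sum_congr rfl fun a _ => ?_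
  rw [Finset.sum_comm]
  refine Finset.sum_congr rfl fun c _ => ?_
  exact Finset.sum_comm

theorem inv_conj (G A : Matrix (Fin k) (Fin k) ℂ) (hG : IsUnit G.det) (d e : Fin k) :
    ∑ a, ∑ c, (G * A * Gᴴ)⁻¹ a c * (conj (G a d) * G c e) = A⁻¹ d e := by
  have hG2 : IsUnit Gᴴ.det := by
    rw [Matrix.det_conjTranspose]
    exact hG.star
  have h1 : Gᴴ * (G * A * Gᴴ)⁻¹ * G = A⁻¹ := by
    rw [Matrix.mul_inv_rev, Matrix.mul_inv_rev, Matrix.mul_nonsing_inv_cancel_left _ _ hG2,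
      Matrix.mul_assoc, Matrix.nonsing_inv_mul _ hG, Matrix.mul_one]
  rw [← h1, Matrix.mul_apply]
  simp only [Matrix.mul_apply, Finset.sum_mul]
  rw [Finset.sum_comm]
  refine Finset.sum_congr rfl fun a _ => Finset.sum_congr rfl fun c _ => ?_
  rw [Matrix.conjTranspose_apply]
  show _ = conj _ * _ * _
  ring

theorem ptK_eq_sum (y : Cn k) : (ptK 0 y : Cn (b + k)) = ∑ i, y i • ef b i := by
  have h1 : ∀ s : Finset (Fin k), base (∑ i ∈ s, y i • ef b i : Cn (b + k)) = 0 := by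
    intro s
    have : base (∑ i ∈ s, y i • ef b i : Cn (b + k)) = bsL b k (∑ i ∈ s, y i • ef b i) := rfl
    rw [this, map_sum]
    refine Finset.sum_eq_zero fun i _ => ?_
    rw [map_smul, bsL_apply, base_ef, smul_zero]
  apply ext_base_fib
  · rw [base_ptK, h1]
  · rw [fib_ptK]
    have : fib (∑ i, y i • ef b i : Cn (b + k)) = fbL b k (∑ i, y i • ef b i) := rfl
    rw [this, map_sum]
    funext j
    rw [Finset.sum_apply]
    have h2 : ∀ i, (fbL b k) (y i • ef b i) j = if i = j then y i else 0 := by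
      intro i
      rw [map_smul, fbL_apply, fib_ef, Pi.smul_apply, smul_eq_mul]
      by_cases hij : i = j
      · subst hij; simp
      · rw [Pi.single_eq_of_ne (Ne.symm hij)]; simp [hij]
    rw [Finset.sum_congr rfl fun i _ => h2 i]
    simp

end Nate

open Nate in
theorem nate (hNATA : S_NATA) (hNATC : S_NATC) (hNATD : S_NATD) : S_NATE := by
  intro b k W' W Q' Q Φ' Φ τ h x hx
  obtain ⟨-, -, hA⟩ := hNATA W' W Q' Q Φ' Φ τ h
  obtain ⟨hbase, hdet, hg, hT, hmu, -, -⟩ := hA x hx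
  have hC := hNATC W' W Q' Q Φ' Φ τ h x hx
  have hD := hNATD W' W Q' Q Φ' Φ τ h x hx
  obtain ⟨G, hGd⟩ : ∃ G, G = Gbq τ x := ⟨_, rfl⟩
  obtain ⟨J, hJd⟩ : ∃ J, J = Jfq τ x := ⟨_, rfl⟩
  rw [← hGd, ← hJd] at hdet hC hD
  rw [← hJd] at hg
  rw [← hGd] at hT
  have hne : (fderiv ℂ τ x).det ≠ 0 := h.det x hx
  have hGu : IsUnit G.det := isUnit_iff_ne_zero.2 fun h0 => hne (by rw [hdet, h0, zero_mul])
  have hJu : IsUnit J.det := isUnit_iff_ne_zero.2 fun h0 => hne (by rw [hdet, h0, mul_zero])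
  obtain ⟨g, hgd⟩ : ∃ g, g = gq Q (τ x) := ⟨_, rfl⟩
  obtain ⟨Θ, hΘd⟩ : ∃ Θ, Θ = Thq Φ (τ x) := ⟨_, rfl⟩
  rw [← hgd] at hg
  rw [← hΘd] at hT
  have hgu : IsUnit g.det := by
    rw [hgd]
    exact (Matrix.isUnit_iff_isUnit_det _).1
      ((h.tgt.flat.posDef (τ x) (h.maps hx) : (gq Q (τ x)).PosDef).isUnit)
  have hJHu : IsUnit Jᴴ.det := by
    rw [Matrix.det_conjTranspose]
    exact hJu.star
  obtain ⟨K, hKd⟩ : ∃ K : Fin b → Matrix (Fin k) (Fin k) ℂ, K = fun a => KKq Q a (τ x) :=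
    ⟨_, rfl⟩
  obtain ⟨A, hAd⟩ : ∃ A : Fin b → Matrix (Fin k) (Fin k) ℂ, A = fun a => AAq Q a (τ x) :=
    ⟨_, rfl⟩
  obtain ⟨B, hBd⟩ : ∃ B : Fin b → Fin k → Matrix (Fin k) (Fin k) ℂ,
    B = fun a i => BBq Q a i (τ x) := ⟨_, rfl⟩
  have hK' : ∀ a, KKq Q' a x = ∑ c, conj (G a c) • (J * K c * Jᴴ) := fun a => by
    rw [(hD a).1, hKd]
  have hA' : ∀ a, AAq Q' a x = ∑ c, conj (G a c) • (J * A c * Jᵀ) := fun a => by
    rw [(hD a).2, hAd]
  have hB' : ∀ a i, BBq Q' a i x = ∑ c, ∑ p, (conj (G a c) * J i p) • (J * B c p * J⁻¹) :=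
    fun a i => by rw [hC a i, hBd]
  have hBH : ∀ a i, (BBq Q' a i x)ᴴ =
      ∑ c, ∑ p, (G a c * conj (J i p)) • ((Jᴴ)⁻¹ * (B c p)ᴴ * Jᴴ) := by
    intro a i
    rw [hB' a i, Matrix.conjTranspose_sum]
    refine Finset.sum_congr rfl fun c _ => ?_
    rw [Matrix.conjTranspose_sum]
    refine Finset.sum_congr rfl fun p _ => ?_
    rw [Matrix.conjTranspose_smul, Matrix.conjTranspose_mul, Matrix.conjTranspose_mul,
      Matrix.conjTranspose_nonsing_inv, Matrix.mul_assoc]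
    congr 1
    show conj _ = _
    rw [map_mul, Complex.conj_conj]
  have hcG := inv_conj G Θ hGu
  have hcJ := inv_conj J g hJu
  rw [← hT] at hcG
  rw [← hg] at hcJ
  have hgi : (gq Q' x)⁻¹ = (Jᴴ)⁻¹ * (g⁻¹ * J⁻¹) := by
    rw [hg, Matrix.mul_inv_rev, Matrix.mul_inv_rev]
  -- the derivative of vertical vectors
  have hv : ∀ y : Cn k, fderiv ℂ τ x (ptK 0 y) = ptK 0 fun s => ∑ i, y i * J i s := by
    intro y
    apply ext_base_fib
    · rw [base_ptK, hbase, base_ptK]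
    · rw [fib_ptK, ptK_eq_sum, map_sum]
      funext s
      show (∑ i, fderiv ℂ τ x (y i • ef b i)) (Fin.natAdd b s) = _
      rw [Finset.sum_apply]
      refine Finset.sum_congr rfl fun i _ => ?_
      rw [map_smul, Pi.smul_apply, smul_eq_mul, hJd]
      rfl
  have hJc : ∀ X : Matrix (Fin k) (Fin k) ℂ, Jᴴ * ((Jᴴ)⁻¹ * X) = X := fun X =>
    Matrix.mul_nonsing_inv_cancel_left _ _ hJHu
  have hJc' : ∀ X : Matrix (Fin k) (Fin k) ℂ, J⁻¹ * (J * X) = X := fun X =>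
    Matrix.nonsing_inv_mul_cancel_left _ _ hJu
  have hJt : ∀ X : Matrix (Fin k) (Fin k) ℂ, Matrix.trace (J * (X * J⁻¹)) = Matrix.trace X := by
    intro X
    rw [Matrix.trace_mul_comm, Matrix.mul_assoc, Matrix.nonsing_inv_mul _ hJu, Matrix.mul_one]
  -- traces
  have ht1 : ∀ a c p, Matrix.trace (KKq Q' a x * (BBq Q' c p x)ᴴ * (gq Q' x)⁻¹) =
      ∑ d, ∑ e, ∑ r, (conj (G a d) * G c e) * conj (J p r) *
        Matrix.trace (K d * (B e r)ᴴ * g⁻¹) := by
    intro a c p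
    rw [hK', hBH, hgi]
    simp only [Matrix.sum_mul, Matrix.smul_mul, Matrix.mul_smul,
      Matrix.trace_sum, Matrix.trace_smul, smul_eq_mul, Finset.mul_sum]
    rw [swap3]
    refine Finset.sum_congr rfl fun d _ => Finset.sum_congr rfl fun e _ =>
      Finset.sum_congr rfl fun r _ => ?_
    have h1 : J * K d * Jᴴ * ((Jᴴ)⁻¹ * (B e r)ᴴ * Jᴴ) * ((Jᴴ)⁻¹ * (g⁻¹ * J⁻¹)) =
        J * ((K d * (B e r)ᴴ * g⁻¹) * J⁻¹) := by
      simp only [Matrix.mul_assoc, hJc]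
    rw [h1, hJt]
    ring
  have ht3 : ∀ a c p i, Matrix.trace (BBq Q' a i x * gq Q' x * (BBq Q' c p x)ᴴ * (gq Q' x)⁻¹) =
      ∑ d, ∑ e, ∑ r, ∑ q, (conj (G a d) * G c e) * (conj (J p r) * J i q) *
        Matrix.trace (B d q * g * (B e r)ᴴ * g⁻¹) := by
    intro a c p i
    rw [hB', hBH, hgi, hg]
    simp only [Matrix.sum_mul, Matrix.smul_mul, Matrix.mul_smul,
      Matrix.trace_sum, Matrix.trace_smul, smul_eq_mul, Finset.mul_sum]
    rw [swap3]
    refine Finset.sum_congr rfl fun d _ => Finset.sum_congr rfl fun e _ =>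
      Finset.sum_congr rfl fun r _ => Finset.sum_congr rfl fun q _ => ?_
    have h1 : J * B d q * J⁻¹ * (J * g * Jᴴ) * ((Jᴴ)⁻¹ * (B e r)ᴴ * Jᴴ) *
        ((Jᴴ)⁻¹ * (g⁻¹ * J⁻¹)) = J * ((B d q * g * (B e r)ᴴ * g⁻¹) * J⁻¹) := by
      simp only [Matrix.mul_assoc, hJc, hJc']
    rw [h1, hJt]
    ring
  -- the matrices `cd_i (conj ψ_a^m)`
  obtain ⟨E', hE'⟩ : ∃ E' : Fin b → Matrix (Fin k) (Fin k) ℂ, E' = fun a => Matrix.of fun m i =>
    cd (Fin.natAdd b i) (fun y => conj (psq Q' a m y)) x := ⟨_, rfl⟩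
  obtain ⟨E, hE⟩ : ∃ E : Fin b → Matrix (Fin k) (Fin k) ℂ, E = fun a => Matrix.of fun m i =>
    cd (Fin.natAdd b i) (fun y => conj (psq Q a m y)) (τ x) := ⟨_, rfl⟩
  have hE'a : ∀ a m i, cd (Fin.natAdd b i) (fun y => conj (psq Q' a m y)) x = E' a m i := by
    intro a m i
    rw [hE']
    rfl
  have hEa : ∀ a m i, cd (Fin.natAdd b i) (fun y => conj (psq Q a m y)) (τ x) = E a m i := by
    intro a m i
    rw [hE]
    rfl
  have hgu' : IsUnit (gq Q' x).det := by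
    rw [hg, Matrix.det_mul, Matrix.det_mul]
    exact (hJu.mul hgu).mul hJHu
  have hAE' : ∀ a, (AAq Q' a x)ᵀ = gq Q' x * E' a := by
    intro a
    ext j i
    rw [Matrix.transpose_apply, Matrix.mul_apply]
    simp only [← hE'a]
    rfl
  have hAE : ∀ a, (A a)ᵀ = g * E a := by
    intro a
    ext j i
    rw [Matrix.transpose_apply, Matrix.mul_apply, hAd, hgd]
    simp only [← hEa]
    rfl
  have hEt : ∀ a, E' a = ∑ d, conj (G a d) • ((Jᴴ)⁻¹ * (E d * Jᵀ)) := by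
    intro a
    have h1 : E' a = (gq Q' x)⁻¹ * (AAq Q' a x)ᵀ := by
      rw [hAE', Matrix.nonsing_inv_mul_cancel_left _ _ hgu']
    rw [h1, hA', Matrix.transpose_sum, Matrix.mul_sum]
    refine Finset.sum_congr rfl fun d _ => ?_
    rw [Matrix.transpose_smul, Matrix.mul_smul, Matrix.transpose_mul, Matrix.transpose_mul,
      Matrix.transpose_transpose, hAE, hgi]
    congr 1
    simp only [Matrix.mul_assoc, hJc']
    rw [Matrix.nonsing_inv_mul_cancel_left _ _ hgu]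
  have ht2 : ∀ a c p i s, (Jᴴ * ((BBq Q' c p x)ᴴ * E' a)) s i =
      ∑ d, ∑ e, ∑ r, ∑ q, (conj (G a d) * G c e) * (conj (J p r) * J i q) *
        ((B e r)ᴴ * E d) s q := by
    intro a c p i s
    rw [hBH, hEt]
    simp only [Matrix.sum_mul, Matrix.smul_mul, Matrix.mul_smul,
      Matrix.sum_apply, Matrix.smul_apply, smul_eq_mul, Finset.mul_sum]
    refine Finset.sum_congr rfl fun d _ => Finset.sum_congr rfl fun e _ =>
      Finset.sum_congr rfl fun r _ => ?_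
    have h1 : Jᴴ * ((Jᴴ)⁻¹ * (B e r)ᴴ * Jᴴ * ((Jᴴ)⁻¹ * (E d * Jᵀ))) =
        ((B e r)ᴴ * E d) * Jᵀ := by
      simp only [Matrix.mul_assoc, hJc]
    rw [h1, Matrix.mul_apply, Finset.mul_sum, Finset.mul_sum]
    refine Finset.sum_congr rfl fun q _ => ?_
    rw [Matrix.transpose_apply]
    ring
  have hsc : ∀ (c : ℂ) (y : Cn k), c • (ptK 0 y : Cn (b + k)) = ptK 0 fun s => c * y s := by
    intro c y
    rw [← ptK_smul, smul_zero]
    rfl
  refine ⟨?_, ?_, ?_⟩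
  · -- the first field
    unfold Y1q
    rw [hv, hsc]
    congr 1
    funext s
    have h1 := contr G J _ _ _ _ hcG hcJ
      (fun a c p i => Matrix.trace (KKq Q' a x * (BBq Q' c p x)ᴴ * (gq Q' x)⁻¹) * J i s)
      (fun d e r q => Matrix.trace (K d * (B e r)ᴴ * g⁻¹) * (if q = s then 1 else 0)) (by
        intro a c p i
        rw [ht1]
        simp only [Finset.sum_mul]
        refine Finset.sum_congr rfl fun d _ => Finset.sum_congr rfl fun e _ =>
          Finset.sum_congr rfl fun r _ => ?_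
        rw [Finset.sum_eq_single s]
        · rw [if_pos rfl]
          ring
        · intro q _ hq
          rw [if_neg hq]
          ring
        · intro hs
          exact absurd (Finset.mem_univ s) hs)
    have h2 : ∑ i, (muq Q' Φ' x * ∑ a, ∑ c, ∑ p, (Thq Φ' x)⁻¹ a c * (gq Q' x)⁻¹ p i *
        Matrix.trace (KKq Q' a x * (BBq Q' c p x)ᴴ * (gq Q' x)⁻¹)) * J i s =
        muq Q' Φ' x * ∑ a, ∑ c, ∑ p, ∑ i, (Thq Φ' x)⁻¹ a c * (gq Q' x)⁻¹ p i *
        (Matrix.trace (KKq Q' a x * (BBq Q' c p x)ᴴ * (gq Q' x)⁻¹) * J i s) := by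
      simp only [Finset.mul_sum, Finset.sum_mul]
      rw [swap4]
      refine Finset.sum_congr rfl fun a _ => Finset.sum_congr rfl fun c _ =>
        Finset.sum_congr rfl fun p _ => Finset.sum_congr rfl fun i _ => ?_
      ring
    rw [h2, h1, hmu, ← hΘd, ← hgd, mul_assoc]
    congr 2
    refine Finset.sum_congr rfl fun d _ => Finset.sum_congr rfl fun e _ =>
      Finset.sum_congr rfl fun r _ => ?_
    rw [Finset.sum_eq_single s]
    · rw [if_pos rfl, mul_one, hKd, hBd]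
    · intro q _ hq
      rw [if_neg hq]
      ring
    · intro hs
      exact absurd (Finset.mem_univ s) hs
  · -- the second field
    unfold Y2q
    rw [hv, hsc]
    congr 1
    funext s
    have h1 := contr G J _ _ _ _ hcG hcJ
      (fun a c p i => (Jᴴ * ((BBq Q' c p x)ᴴ * E' a)) s i)
      (fun d e r q => ((B e r)ᴴ * E d) s q) (fun a c p i => ht2 a c p i s)
    have h2 : ∑ l, conj (muq Q' Φ' x * ∑ a, ∑ c, ∑ p, ∑ i, ∑ m, (Thq Φ' x)⁻¹ a c *
        (gq Q' x)⁻¹ p i * (BBq Q' c p x)ᴴ l m *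
        cd (Fin.natAdd b i) (fun y => conj (psq Q' a m y)) x) * J l s =
        conj (muq Q' Φ' x * ∑ a, ∑ c, ∑ p, ∑ i, (Thq Φ' x)⁻¹ a c * (gq Q' x)⁻¹ p i *
          (Jᴴ * ((BBq Q' c p x)ᴴ * E' a)) s i) := by
      have h3 : ∀ l, conj (muq Q' Φ' x * ∑ a, ∑ c, ∑ p, ∑ i, ∑ m, (Thq Φ' x)⁻¹ a c *
          (gq Q' x)⁻¹ p i * (BBq Q' c p x)ᴴ l m *
          cd (Fin.natAdd b i) (fun y => conj (psq Q' a m y)) x) * J l s =
          conj (conj (J l s) * (muq Q' Φ' x * ∑ a, ∑ c, ∑ p, ∑ i, (Thq Φ' x)⁻¹ a c *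
            (gq Q' x)⁻¹ p i * ((BBq Q' c p x)ᴴ * E' a) l i)) := by
        intro l
        rw [map_mul conj (conj (J l s)), Complex.conj_conj, mul_comm]
        congr 3
        refine Finset.sum_congr rfl fun a _ => Finset.sum_congr rfl fun c _ =>
          Finset.sum_congr rfl fun p _ => Finset.sum_congr rfl fun i _ => ?_
        rw [Matrix.mul_apply, Finset.mul_sum]
        refine Finset.sum_congr rfl fun m _ => ?_
        rw [hE'a]
        ring
      rw [Finset.sum_congr rfl fun l _ => h3 l, ← map_sum]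
      congr 1
      simp only [Finset.mul_sum]
      rw [swap4]
      refine Finset.sum_congr rfl fun a _ => Finset.sum_congr rfl fun c _ =>
        Finset.sum_congr rfl fun p _ => ?_
      rw [Finset.sum_comm]
      refine Finset.sum_congr rfl fun i _ => ?_
      rw [Matrix.mul_apply (M := Jᴴ), Finset.mul_sum, Finset.mul_sum]
      refine Finset.sum_congr rfl fun l _ => ?_
      rw [Matrix.conjTranspose_apply]
      show _ = _ * (_ * (conj (J l s) * _))
      ring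
    rw [h2, h1, hmu, ← hΘd, ← hgd, mul_assoc, map_mul, Complex.conj_ofReal]
    congr 3
    refine Finset.sum_congr rfl fun d _ => Finset.sum_congr rfl fun e _ =>
      Finset.sum_congr rfl fun r _ => Finset.sum_congr rfl fun q _ => ?_
    rw [Matrix.mul_apply, Finset.mul_sum]
    refine Finset.sum_congr rfl fun m _ => ?_
    rw [hEa, hBd]
    ring
  · -- the norm
    have h1 := contr G J _ _ _ _ hcG hcJ
      (fun a c p i => Matrix.trace (BBq Q' a i x * gq Q' x * (BBq Q' c p x)ᴴ * (gq Q' x)⁻¹))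
      (fun d e r q => Matrix.trace (B d q * g * (B e r)ᴴ * g⁻¹)) ht3
    unfold NBq
    rw [← hΘd, ← hgd]
    have h2 : ∑ a, ∑ c, ∑ i, ∑ p, (Thq Φ' x)⁻¹ a c * (gq Q' x)⁻¹ p i *
        Matrix.trace (BBq Q' a i x * gq Q' x * (BBq Q' c p x)ᴴ * (gq Q' x)⁻¹) =
        ∑ a, ∑ c, ∑ p, ∑ i, (Thq Φ' x)⁻¹ a c * (gq Q' x)⁻¹ p i *
        Matrix.trace (BBq Q' a i x * gq Q' x * (BBq Q' c p x)ᴴ * (gq Q' x)⁻¹) := by
      refine Finset.sum_congr rfl fun a _ => Finset.sum_congr rfl fun c _ => Finset.sum_comm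
    rw [h2, h1]
    refine Finset.sum_congr rfl fun a _ => Finset.sum_congr rfl fun c _ => ?_
    rw [Finset.sum_comm, hBd]

end Pool.Agent.Helper29.RK
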