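import Pool.Agent.Helper36.RK.GoalsP
import Pool.Agent.Helper93.RK.DIFP
import Pool.Agent.Helper94.RK.ALGP
import Pool.Agent.Helper10.SP.WIRT

/-! # RK packet LDET: the Levi form of the logarithm of the determinant -/

open Complex Metric Set Filter Topology MeasureTheory Matrix
open scoped ContDiff ComplexConjugate ComplexOrder Manifold

namespace Pool.Agent.Helper29.RK

open Pool.Agent.Helper95.Lin Pool.Agent.Helper10.SP Pool.Agent.Helper95.RK
open Pool.Agent.Helper36.RK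

section wcalc

variable {n : ℕ} {x : Cn n}

/-- Derivative of the determinant. -/
theorem fderiv_det {k : ℕ} {K : Cn n → Matrix (Fin k) (Fin k) ℂ}
    (h : ∀ p q, DifferentiableAt ℝ (fun y => K y p q) x) (v : Cn n) :
    DifferentiableAt ℝ (fun y => (K y).det) x ∧ fderiv ℝ (fun y => (K y).det) x v =
      ((K x).adjugate * Matrix.of fun p q => fderiv ℝ (fun y => K y p q) x v).trace := by
  have e : (fun y => (K y).det) = fun y => ∑ σ : Equiv.Perm (Fin k),
      ((Equiv.Perm.sign σ : ℤ) : ℂ) * ∏ i, K y (σ i) i := by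
    funext z
    exact Matrix.det_apply' _
  have h1 : HasFDerivAt (fun y => ∑ σ : Equiv.Perm (Fin k),
      ((Equiv.Perm.sign σ : ℤ) : ℂ) * ∏ i, K y (σ i) i)
      (∑ σ : Equiv.Perm (Fin k), ((Equiv.Perm.sign σ : ℤ) : ℂ) •
        ∑ i, (∏ j ∈ Finset.univ.erase i, K x (σ j) j) • fderiv ℝ (fun y => K y (σ i) i) x) x := by
    refine HasFDerivAt.fun_sum fun σ _ => ?_
    refine HasFDerivAt.const_mul ?_ _
    exact HasFDerivAt.finsetProd fun i _ => (h _ _).hasFDerivAt
  rw [← e] at h1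
  refine ⟨h1.differentiableAt, ?_⟩
  rw [h1.fderiv]
  obtain ⟨E, hE⟩ : ∃ E : Matrix (Fin k) (Fin k) ℂ,
    E = Matrix.of fun p q => fderiv ℝ (fun y => K y p q) x v := ⟨_, rfl⟩
  have hEa : ∀ p q, fderiv ℝ (fun y => K y p q) x v = E p q := by
    intro p q
    rw [hE]
    rfl
  rw [← hE]
  have h2 : ((K x).adjugate * E).trace = ∑ i, ((K x).updateCol i (fun p => E p i)).det := by
    unfold Matrix.trace
    refine Finset.sum_congr rfl fun i _ => ?_
    rw [← Matrix.cramer_apply, Matrix.cramer_eq_adjugate_mulVec]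
    rfl
  rw [h2]
  simp only [_root_.sum_apply, _root_.smul_apply, smul_eq_mul, hEa]
  have h3 : ∀ i, ((K x).updateCol i (fun p => E p i)).det = ∑ σ : Equiv.Perm (Fin k),
      ((Equiv.Perm.sign σ : ℤ) : ℂ) * ((∏ j ∈ Finset.univ.erase i, K x (σ j) j) * E (σ i) i) := by
    intro i
    rw [Matrix.det_apply']
    refine Finset.sum_congr rfl fun σ _ => ?_
    congr 1
    rw [← Finset.mul_prod_erase Finset.univ _ (Finset.mem_univ i), mul_comm]
    congr 1
    · refine Finset.prod_congr rfl fun j hj => ?_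
      rw [Matrix.updateCol_ne (Finset.ne_of_mem_erase hj)]
    · rw [Matrix.updateCol_self]
  rw [Finset.sum_congr rfl fun i _ => h3 i, Finset.sum_comm]
  refine Finset.sum_congr rfl fun σ _ => ?_
  rw [Finset.mul_sum]

/-- Derivative of the logarithm of a positive determinant. -/
theorem fderiv_logdet {k : ℕ} {D : Set (Cn n)} (hD : IsOpen D)
    {K : Cn n → Matrix (Fin k) (Fin k) ℂ}
    (h : ∀ p q, ContDiffOn ℝ ∞ (fun y => K y p q) D)
    (hd : ∀ z ∈ D, 0 < (K z).det.re ∧ (K z).det.im = 0) (hx : x ∈ D) (v : Cn n) :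
    fderiv ℝ (fun y => ((Real.log (K y).det.re : ℝ) : ℂ)) x v =
      ((K x)⁻¹ * Matrix.of fun p q => fderiv ℝ (fun y => K y p q) x v).trace := by
  have hda : ∀ p q, DifferentiableAt ℝ (fun y => K y p q) x := fun p q =>
    Wirt.dAt hD (h p q) hx
  obtain ⟨h1, h2⟩ := fderiv_det hda v
  obtain ⟨F, hF⟩ : ∃ F, F = fderiv ℝ (fun y => (K y).det) x := ⟨_, rfl⟩
  have h3 : HasFDerivAt (fun y => (K y).det) F x := by rw [hF]; exact h1.hasFDerivAt
  have h4 : HasFDerivAt (fun y => (K y).det.re) (reCLM.comp F) x :=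
    reCLM.hasFDerivAt.comp x h3
  have h5 : HasFDerivAt (fun y => (K y).det.im) (imCLM.comp F) x :=
    imCLM.hasFDerivAt.comp x h3
  have h6 : (F v).im = 0 := by
    have e : (fun y => (K y).det.im) =ᶠ[𝓝 x] fun _ => (0 : ℝ) := by
      filter_upwards [hD.mem_nhds hx] with y hy
      exact (hd y hy).2
    have h7 : HasFDerivAt (fun y => (K y).det.im) (0 : Cn n →L[ℝ] ℝ) x :=
      (hasFDerivAt_const (0 : ℝ) x).congr_of_eventuallyEq e
    have h8 := congrArg (fun L : Cn n →L[ℝ] ℝ => L v) (h5.unique h7)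
    simpa using h8
  have h7 : HasFDerivAt (fun y => Real.log (K y).det.re) ((K x).det.re⁻¹ • reCLM.comp F) x :=
    h4.log (hd x hx).1.ne'
  have h8 : HasFDerivAt (fun y => ((Real.log (K y).det.re : ℝ) : ℂ))
      (ofRealCLM.comp ((K x).det.re⁻¹ • reCLM.comp F)) x := ofRealCLM.hasFDerivAt.comp x h7
  rw [h8.fderiv]
  have h9 : (((K x).det.re : ℝ) : ℂ) = (K x).det := by
    apply Complex.ext
    · simp
    · simp [(hd x hx).2]
  have h10 : (((F v).re : ℝ) : ℂ) = F v := by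
    apply Complex.ext
    · simp
    · simp [h6]
  have h11 : (ofRealCLM.comp ((K x).det.re⁻¹ • reCLM.comp F)) v = (K x).det⁻¹ * F v := by
    rw [← h9, ← h10]
    simp
  rw [h11, hF, h2, Matrix.inv_def, Ring.inverse_eq_inv', Matrix.smul_mul, Matrix.trace_smul,
    smul_eq_mul]

theorem cd_congr {f g : Cn n → ℂ} (h : f =ᶠ[𝓝 x] g) (l : Fin n) : cd l f x = cd l g x := by
  unfold cd
  rw [h.fderiv_eq]

theorem cdb_congr {f g : Cn n → ℂ} (h : f =ᶠ[𝓝 x] g) (l : Fin n) : cdb l f x = cdb l g x := by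
  unfold cdb
  rw [h.fderiv_eq]

theorem cd_sum {ι : Type} (s : Finset ι) {f : ι → Cn n → ℂ}
    (hf : ∀ i ∈ s, DifferentiableAt ℝ (f i) x) (l : Fin n) :
    cd l (fun y => ∑ i ∈ s, f i y) x = ∑ i ∈ s, cd l (f i) x := by
  unfold cd
  rw [fderiv_fun_sum hf]
  simp only [_root_.sum_apply, Finset.mul_sum, Finset.sum_sub_distrib]

theorem cdb_sum {ι : Type} (s : Finset ι) {f : ι → Cn n → ℂ}
    (hf : ∀ i ∈ s, DifferentiableAt ℝ (f i) x) (l : Fin n) :
    cdb l (fun y => ∑ i ∈ s, f i y) x = ∑ i ∈ s, cdb l (f i) x := by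
  unfold cdb
  rw [fderiv_fun_sum hf]
  simp only [_root_.sum_apply, Finset.mul_sum, Finset.sum_add_distrib]

theorem cd_mul {f g : Cn n → ℂ} (hf : DifferentiableAt ℝ f x) (hg : DifferentiableAt ℝ g x)
    (l : Fin n) : cd l (fun y => f y * g y) x = f x * cd l g x + g x * cd l f x := by
  unfold cd
  rw [fderiv_fun_mul hf hg]
  simp only [_root_.add_apply, _root_.smul_apply, smul_eq_mul]
  ring

theorem cdb_mul {f g : Cn n → ℂ} (hf : DifferentiableAt ℝ f x) (hg : DifferentiableAt ℝ g x)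
    (l : Fin n) : cdb l (fun y => f y * g y) x = f x * cdb l g x + g x * cdb l f x := by
  unfold cdb
  rw [fderiv_fun_mul hf hg]
  simp only [_root_.add_apply, _root_.smul_apply, smul_eq_mul]
  ring

theorem cd_const (c : ℂ) (l : Fin n) : cd l (fun _ => c) x = 0 := by
  unfold cd
  simp

theorem cdb_const (c : ℂ) (l : Fin n) : cdb l (fun _ => c) x = 0 := by
  unfold cdb
  simp

/-- The inverse of a matrix of functions. -/
theorem cd_inv {k : ℕ} {D : Set (Cn n)} (hD : IsOpen D)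
    {K : Cn n → Matrix (Fin k) (Fin k) ℂ}
    (h : ∀ p q, ContDiffOn ℝ ∞ (fun y => K y p q) D)
    (hi : ∀ p q, ContDiffOn ℝ ∞ (fun y => (K y)⁻¹ p q) D)
    (hd : ∀ z ∈ D, IsUnit (K z).det) (hx : x ∈ D) (l : Fin n) :
    (Matrix.of fun p q => cd l (fun y => (K y)⁻¹ p q) x) =
      - ((K x)⁻¹ * (Matrix.of fun p q => cd l (fun y => K y p q) x) * (K x)⁻¹) := by
  obtain ⟨A, hA⟩ : ∃ A : Matrix (Fin k) (Fin k) ℂ,
    A = Matrix.of fun p q => cd l (fun y => (K y)⁻¹ p q) x := ⟨_, rfl⟩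
  obtain ⟨B, hB⟩ : ∃ B : Matrix (Fin k) (Fin k) ℂ,
    B = Matrix.of fun p q => cd l (fun y => K y p q) x := ⟨_, rfl⟩
  rw [← hA, ← hB]
  have h1 : (K x)⁻¹ * B + A * K x = 0 := by
    ext p q
    have e : (fun y => ∑ r, (K y)⁻¹ p r * K y r q) =ᶠ[𝓝 x]
        fun _ => (1 : Matrix (Fin k) (Fin k) ℂ) p q := by
      filter_upwards [hD.mem_nhds hx] with y hy
      rw [← Matrix.nonsing_inv_mul (K y) (hd y hy)]
      rfl
    have h2 := cd_congr e l
    rw [cd_const, cd_sum Finset.univ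
      (fun r _ => (Wirt.dAt hD (hi p r) hx).fun_mul (Wirt.dAt hD (h r q) hx)),
      Finset.sum_congr rfl (fun r _ =>
        cd_mul (Wirt.dAt hD (hi p r) hx) (Wirt.dAt hD (h r q) hx) l),
      Finset.sum_add_distrib] at h2
    rw [Matrix.add_apply, Matrix.mul_apply, Matrix.mul_apply, Matrix.zero_apply, ← h2, hA, hB]
    simp only [Matrix.of_apply]
    congr 1
    exact Finset.sum_congr rfl fun r _ => mul_comm _ _
  have h2 : A * K x * (K x)⁻¹ = A := Matrix.mul_nonsing_inv_cancel_right _ _ (hd x hx)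
  rw [← h2, eq_neg_of_add_eq_zero_right h1, Matrix.neg_mul]

/-- The Levi matrix of the logarithm of a positive determinant. -/
theorem LM_logdet {k : ℕ} {D : Set (Cn n)} (hD : IsOpen D)
    {K : Cn n → Matrix (Fin k) (Fin k) ℂ}
    (h : ∀ p q, ContDiffOn ℝ ∞ (fun y => K y p q) D)
    (hi : ∀ p q, ContDiffOn ℝ ∞ (fun y => (K y)⁻¹ p q) D)
    (hd : ∀ z ∈ D, 0 < (K z).det.re ∧ (K z).det.im = 0) (hx : x ∈ D) (j l : Fin n) :
    LM (fun y => Real.log (K y).det.re) x j l =
      ((K x)⁻¹ * Matrix.of fun p q => cd j (cdb l (fun y => K y p q)) x).trace -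
      ((K x)⁻¹ * (Matrix.of fun p q => cd j (fun y => K y p q) x) * (K x)⁻¹ *
        Matrix.of fun p q => cdb l (fun y => K y p q) x).trace := by
  have hu : ∀ z ∈ D, IsUnit (K z).det := by
    intro z hz
    refine isUnit_iff_ne_zero.2 fun h0 => ?_
    have h1 := (hd z hz).1
    rw [h0] at h1
    simp at h1
  have hs : ∀ p q, ContDiffOn ℝ ∞ (cdb l (fun y => K y p q)) D := fun p q =>
    Wirt.cdb_smooth hD (h p q) l
  have e1 : (cdb l fun y => ((Real.log (K y).det.re : ℝ) : ℂ)) =ᶠ[𝓝 x]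
      fun y => ∑ p, ∑ q, (K y)⁻¹ p q * cdb l (fun w => K w q p) y := by
    filter_upwards [hD.mem_nhds hx] with y hy
    have h1 : cdb l (fun y => ((Real.log (K y).det.re : ℝ) : ℂ)) y =
      ((K y)⁻¹ * Matrix.of fun p q => fderiv ℝ (fun y => K y p q) y (Pi.single l 1)).trace +
      I * ((K y)⁻¹ * Matrix.of fun p q => fderiv ℝ (fun y => K y p q) y (Pi.single l I)).trace := by
      rw [← fderiv_logdet hD h hd hy, ← fderiv_logdet hD h hd hy]
      rfl
    rw [h1]
    simp only [Matrix.trace, Matrix.diag, Matrix.mul_apply, Matrix.of_apply, cdb, mul_add,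
      Finset.sum_add_distrib, Finset.mul_sum]
    congr 1
    refine Finset.sum_congr rfl fun p _ => Finset.sum_congr rfl fun q _ => ?_
    ring
  have hdi : ∀ p q, DifferentiableAt ℝ (fun y => (K y)⁻¹ p q) x := fun p q =>
    Wirt.dAt hD (hi p q) hx
  have hds : ∀ p q, DifferentiableAt ℝ (cdb l (fun y => K y p q)) x := fun p q =>
    Wirt.dAt hD (hs p q) hx
  have h1 : LM (fun y => Real.log (K y).det.re) x j l =
      cd j (cdb l fun y => ((Real.log (K y).det.re : ℝ) : ℂ)) x := rfl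
  rw [h1, cd_congr e1]
  have h2 : cd j (fun y => ∑ p, ∑ q, (K y)⁻¹ p q * cdb l (fun w => K w q p) y) x =
      ∑ p, ∑ q, ((K x)⁻¹ p q * cd j (cdb l fun y => K y q p) x +
        cdb l (fun w => K w q p) x * cd j (fun y => (K y)⁻¹ p q) x) := by
    rw [cd_sum Finset.univ (fun p _ => DifferentiableAt.fun_sum fun q _ =>
      (hdi p q).fun_mul (hds q p))]
    refine Finset.sum_congr rfl fun p _ => ?_
    rw [cd_sum Finset.univ (fun q _ => (hdi p q).fun_mul (hds q p))]
    refine Finset.sum_congr rfl fun q _ => ?_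
    exact cd_mul (hdi p q) (hds q p) j
  rw [h2]
  have h3 : ∀ p q, cd j (fun y => (K y)⁻¹ p q) x = (- ((K x)⁻¹ *
      (Matrix.of fun p q => cd j (fun y => K y p q) x) * (K x)⁻¹)) p q := by
    intro p q
    rw [← cd_inv hD h hi hu hx j]
    rfl
  obtain ⟨X, hX⟩ : ∃ X : Matrix (Fin k) (Fin k) ℂ, X = (K x)⁻¹ *
      (Matrix.of fun p q => cd j (fun y => K y p q) x) * (K x)⁻¹ := ⟨_, rfl⟩
  rw [← hX] at h3 ⊢
  simp only [h3, Matrix.neg_apply, mul_neg, Finset.sum_add_distrib, Finset.sum_neg_distrib,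
    Matrix.trace, Matrix.diag, Matrix.mul_apply, Matrix.of_apply]
  rw [← sub_eq_add_neg]
  congr 1
  refine Finset.sum_congr rfl fun p _ => Finset.sum_congr rfl fun q _ => ?_
  ring

end wcalc

section holo

variable {n m : ℕ} {D : Set (Cn n)} {x : Cn n}

theorem holo_dAt (hD : IsOpen D) {f : Cn n → ℂ} (hf : DifferentiableOn ℂ f D) (hx : x ∈ D) :
    DifferentiableAt ℂ f x := hf.differentiableAt (hD.mem_nhds hx)

theorem cd_holo {f : Cn n → ℂ} (hf : DifferentiableAt ℂ f x) (l : Fin n) :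
    cd l f x = 2 * fderiv ℂ f x (Pi.single l 1) := by
  unfold cd
  rw [hf.fderiv_restrictScalars ℝ]
  have e : (Pi.single l I : Cn n) = I • Pi.single l (1 : ℂ) := by
    rw [← Pi.single_smul, smul_eq_mul, mul_one]
  simp only [ContinuousLinearMap.coe_restrictScalars']
  rw [e, map_smul, smul_eq_mul, ← mul_assoc, Complex.I_mul_I]
  ring

theorem cdb_holo {f : Cn n → ℂ} (hf : DifferentiableAt ℂ f x) (l : Fin n) :
    cdb l f x = 0 := by
  unfold cdb
  rw [hf.fderiv_restrictScalars ℝ]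
  have e : (Pi.single l I : Cn n) = I • Pi.single l (1 : ℂ) := by
    rw [← Pi.single_smul, smul_eq_mul, mul_one]
  simp only [ContinuousLinearMap.coe_restrictScalars']
  rw [e, map_smul, smul_eq_mul, ← mul_assoc, Complex.I_mul_I]
  ring

theorem fderiv_conj {f : Cn n → ℂ} (hf : DifferentiableAt ℝ f x) (v : Cn n) :
    fderiv ℝ (fun y => conj (f y)) x v = conj (fderiv ℝ f x v) := by
  have h1 : HasFDerivAt (fun y => conj (f y))
      ((conjCLE : ℂ →L[ℝ] ℂ).comp (fderiv ℝ f x)) x :=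
    (conjCLE : ℂ →L[ℝ] ℂ).hasFDerivAt.comp x hf.hasFDerivAt
  rw [h1.fderiv]
  rfl

theorem dAt_conj {f : Cn n → ℂ} (hf : DifferentiableAt ℝ f x) :
    DifferentiableAt ℝ (fun y => conj (f y)) x := by
  have h1 : HasFDerivAt (fun y => conj (f y))
      ((conjCLE : ℂ →L[ℝ] ℂ).comp (fderiv ℝ f x)) x :=
    (conjCLE : ℂ →L[ℝ] ℂ).hasFDerivAt.comp x hf.hasFDerivAt
  exact h1.differentiableAt

theorem cd_conj {f : Cn n → ℂ} (hf : DifferentiableAt ℝ f x) (l : Fin n) :
    cd l (fun y => conj (f y)) x = conj (cdb l f x) := by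
  unfold cd cdb
  rw [fderiv_conj hf, fderiv_conj hf, map_add, map_mul, Complex.conj_I]
  ring

theorem cdb_conj {f : Cn n → ℂ} (hf : DifferentiableAt ℝ f x) (l : Fin n) :
    cdb l (fun y => conj (f y)) x = conj (cd l f x) := by
  unfold cd cdb
  rw [fderiv_conj hf, fderiv_conj hf, map_sub, map_mul, Complex.conj_I]
  ring

/-- Derivatives of a sesquilinear expression. -/
theorem cd_sesq (f g : Fin m → Cn n → ℂ) (hf : ∀ i, DifferentiableAt ℂ (f i) x)
    (hg : ∀ i, DifferentiableAt ℂ (g i) x) (O : Fin m → Fin m → ℂ) (κ : ℂ) (l : Fin n) :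
    cd l (fun y => κ * ∑ j, (∑ i, conj (f i y) * O i j) * g j y) x =
      κ * ∑ j, (∑ i, conj (f i x) * O i j) * (2 * fderiv ℂ (g j) x (Pi.single l 1)) ∧
    cdb l (fun y => κ * ∑ j, (∑ i, conj (f i y) * O i j) * g j y) x =
      κ * ∑ j, (∑ i, conj (2 * fderiv ℂ (f i) x (Pi.single l 1)) * O i j) * g j x := by
  have hf' : ∀ i, DifferentiableAt ℝ (f i) x := fun i => (hf i).restrictScalars ℝ
  have hg' : ∀ i, DifferentiableAt ℝ (g i) x := fun i => (hg i).restrictScalars ℝ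
  have hfc : ∀ i, DifferentiableAt ℝ (fun y => conj (f i y)) x := fun i => dAt_conj (hf' i)
  have h0 : ∀ i j, DifferentiableAt ℝ (fun y => conj (f i y) * O i j) x := fun i j =>
    (hfc i).fun_mul (differentiableAt_const _)
  have h1 : ∀ j, DifferentiableAt ℝ (fun y => ∑ i, conj (f i y) * O i j) x := fun j =>
    DifferentiableAt.fun_sum fun i _ => h0 i j
  have h2 : ∀ j, DifferentiableAt ℝ (fun y => (∑ i, conj (f i y) * O i j) * g j y) x := fun j =>
    (h1 j).fun_mul (hg' j)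
  have h3 : DifferentiableAt ℝ (fun y => ∑ j, (∑ i, conj (f i y) * O i j) * g j y) x :=
    DifferentiableAt.fun_sum fun j _ => h2 j
  constructor
  · rw [cd_mul (differentiableAt_const κ) h3, cd_const, mul_zero, add_zero,
      cd_sum Finset.univ fun j _ => h2 j]
    congr 1
    refine Finset.sum_congr rfl fun j _ => ?_
    rw [cd_mul (h1 j) (hg' j), cd_sum Finset.univ fun i _ => h0 i j, cd_holo (hg j)]
    have h4 : ∑ i, cd l (fun y => conj (f i y) * O i j) x = 0 := by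
      refine Finset.sum_eq_zero fun i _ => ?_
      rw [cd_mul (hfc i) (differentiableAt_const _), cd_const, cd_conj (hf' i), cdb_holo (hf i)]
      simp
    rw [h4, mul_zero, add_zero]
  · rw [cdb_mul (differentiableAt_const κ) h3, cdb_const, mul_zero, add_zero,
      cdb_sum Finset.univ fun j _ => h2 j]
    congr 1
    refine Finset.sum_congr rfl fun j _ => ?_
    rw [cdb_mul (h1 j) (hg' j), cdb_sum Finset.univ fun i _ => h0 i j, cdb_holo (hg j), mul_zero,
      zero_add, mul_comm]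
    congr 1
    refine Finset.sum_congr rfl fun i _ => ?_
    rw [cdb_mul (hfc i) (differentiableAt_const _), cdb_const, cdb_conj (hf' i), cd_holo (hf i),
      mul_zero, zero_add, mul_comm]

end holo

theorem ldet (hALGP : S_ALGP) (hDIFP : S_DIFP) : S_LDET := by
  intro b k D lam Om hPol z hz j l
  obtain ⟨hsym, -, -, hsm, hdet, -⟩ := hDIFP D lam Om hPol
  have hD := hPol.isOpen
  have hP := hPol.pol z hz
  obtain ⟨hOd, hOinv, -, -, -, -, -⟩ := hALGP (Lm lam z) Om hP
  have hK : ∀ p q, ContDiffOn ℝ ∞ (fun y => Hi lam Om y p q) D := fun p q => (hsm p q).1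
  have hH : ∀ p q, ContDiffOn ℝ ∞ (fun y => (Hi lam Om y)⁻¹ p q) D := fun p q => (hsm p q).2
  rw [LM_logdet hD hK hH hdet hz]
  have hlam : ∀ c p, DifferentiableOn ℂ (fun y => lam c y p) D := fun c p =>
    (differentiableOn_pi.1 (hPol.holo c)) p
  -- the derivatives of the entries
  have hfd : ∀ y ∈ D, ∀ c p v, fderiv ℂ (fun w => lam c w p) y v = fderiv ℂ (lam c) y v p := by
    intro y hy c p v
    have h1 : HasFDerivAt (fun w => lam c w p)
        ((ContinuousLinearMap.proj p : (Fin k → ℂ) →L[ℂ] ℂ).comp (fderiv ℂ (lam c) y)) y :=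
      (ContinuousLinearMap.proj (R := ℂ) (φ := fun _ : Fin k => ℂ) p).hasFDerivAt.comp y
        ((hPol.holo c).differentiableAt (hD.mem_nhds hy)).hasFDerivAt
    rw [h1.fderiv]
    rfl
  obtain ⟨κ, hκ⟩ : ∃ κ : ℂ, κ = 1 / (2 * I) := ⟨_, rfl⟩
  have hKe : ∀ p q, (fun y => Hi lam Om y p q) =
      fun y => κ * ∑ d, (∑ c, conj (lam c y p) * (Om c d : ℂ)) * lam d y q := by
    intro p q
    rw [hκ]
    rfl
  have e1 : (Matrix.of fun p q => cd j (fun y => Hi lam Om y p q) z) =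
      (2 * κ) • (cj (Lm lam z) * toC Om * (dL lam z (Pi.single j 1)).transpose) := by
    ext p q
    rw [Matrix.of_apply, hKe, (cd_sesq (fun c y => lam c y p) (fun d y => lam d y q)
      (fun c => holo_dAt hD (hlam c p) hz) (fun c => holo_dAt hD (hlam c q) hz)
      (fun c d => (Om c d : ℂ)) κ j).1, Matrix.smul_apply, Matrix.mul_apply, smul_eq_mul]
    rw [mul_comm 2 κ, mul_assoc, Finset.mul_sum Finset.univ _ (2 : ℂ)]
    congr 1
    refine Finset.sum_congr rfl fun d _ => ?_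
    rw [hfd z hz]
    show _ = 2 * ((∑ c, conj (lam c z p) * (Om c d : ℂ)) * fderiv ℂ (lam d) z (Pi.single j 1) q)
    ring
  have e2' : ∀ y ∈ D, ∀ p q, cdb l (fun y => Hi lam Om y p q) y =
      κ * ∑ d, (∑ c, conj (2 * fderiv ℂ (fun w => lam c w p) y (Pi.single l 1)) * (Om c d : ℂ)) *
        lam d y q := by
    intro y hy p q
    rw [hKe, (cd_sesq (fun c y => lam c y p) (fun d y => lam d y q)
      (fun c => holo_dAt hD (hlam c p) hy) (fun c => holo_dAt hD (hlam c q) hy)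
      (fun c d => (Om c d : ℂ)) κ l).2]
  have e2 : (Matrix.of fun p q => cdb l (fun y => Hi lam Om y p q) z) =
      (2 * κ) • (cj (dL lam z (Pi.single l 1)) * toC Om * (Lm lam z).transpose) := by
    ext p q
    rw [Matrix.of_apply, e2' z hz, Matrix.smul_apply, Matrix.mul_apply, smul_eq_mul]
    rw [mul_comm 2 κ, mul_assoc, Finset.mul_sum Finset.univ _ (2 : ℂ)]
    congr 1
    refine Finset.sum_congr rfl fun d _ => ?_
    show _ = 2 * ((∑ c, conj (fderiv ℂ (lam c) z (Pi.single l 1) p) * (Om c d : ℂ)) * lam d z q)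
    rw [← mul_assoc, Finset.mul_sum]
    congr 1
    refine Finset.sum_congr rfl fun c _ => ?_
    rw [hfd z hz, map_mul, map_ofNat, mul_assoc]
  have e3 : (Matrix.of fun p q => cd j (cdb l (fun y => Hi lam Om y p q)) z) =
      (4 * κ) • (cj (dL lam z (Pi.single l 1)) * toC Om *
        (dL lam z (Pi.single j 1)).transpose) := by
    ext p q
    rw [Matrix.of_apply]
    have h1 : cdb l (fun y => Hi lam Om y p q) =ᶠ[𝓝 z] fun y => κ * ∑ d,
        (∑ c, conj (2 * fderiv ℂ (fun w => lam c w p) y (Pi.single l 1)) * (Om c d : ℂ)) *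
        lam d y q := by
      filter_upwards [hD.mem_nhds hz] with y hy
      exact e2' y hy p q
    have h2 : ∀ c, DifferentiableAt ℂ
        (fun y => 2 * fderiv ℂ (fun w => lam c w p) y (Pi.single l 1)) z := by
      intro c
      have h3 : DifferentiableOn ℂ (fun y => fderiv ℂ (fun w => lam c w p) y (Pi.single l 1)) D :=
        (holo_fderiv hD (hlam c p)).clm_apply (differentiableOn_const _)
      exact (differentiableAt_const _).fun_mul (holo_dAt hD h3 hz)
    rw [cd_congr h1, (cd_sesq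
      (fun c y => 2 * fderiv ℂ (fun w => lam c w p) y (Pi.single l 1)) (fun d y => lam d y q)
      h2 (fun c => holo_dAt hD (hlam c q) hz)
      (fun c d => (Om c d : ℂ)) κ j).1, Matrix.smul_apply, Matrix.mul_apply, smul_eq_mul]
    rw [mul_comm 4 κ, mul_assoc, Finset.mul_sum Finset.univ _ (4 : ℂ)]
    congr 1
    refine Finset.sum_congr rfl fun d _ => ?_
    show _ = 4 * ((∑ c, conj (fderiv ℂ (lam c) z (Pi.single l 1) p) * (Om c d : ℂ)) *
      fderiv ℂ (lam d) z (Pi.single j 1) q)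
    rw [hfd z hz]
    have h4 : (∑ c, conj (2 * fderiv ℂ (fun w => lam c w p) z (Pi.single l 1)) * (Om c d : ℂ)) =
        2 * ∑ c, conj (fderiv ℂ (lam c) z (Pi.single l 1) p) * (Om c d : ℂ) := by
      rw [Finset.mul_sum]
      refine Finset.sum_congr rfl fun c _ => ?_
      rw [hfd z hz, map_mul, map_ofNat, mul_assoc]
    rw [h4]
    ring
  rw [e1, e2, e3]
  -- linear algebra
  have hσj := hsym z hz (Pi.single j 1)
  unfold bt hs Hb sV
  unfold sV at hσj
  have hHi : (hiM (Lm lam z) Om)⁻¹ = (Hi lam Om z)⁻¹ := rfl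
  rw [hHi] at hOinv
  obtain ⟨H, hHd⟩ : ∃ H, H = (Hi lam Om z)⁻¹ := ⟨_, rfl⟩
  obtain ⟨P, hPd⟩ : ∃ P, P = Lm lam z := ⟨_, rfl⟩
  obtain ⟨Lj, hLj⟩ : ∃ Lj, Lj = dL lam z (Pi.single j 1) := ⟨_, rfl⟩
  obtain ⟨Ll, hLl⟩ : ∃ Ll, Ll = dL lam z (Pi.single l 1) := ⟨_, rfl⟩
  rw [← hHd, ← hPd, ← hκ] at hOinv
  rw [← hLj, ← hPd] at hσj
  rw [← hHd, ← hPd, ← hLj, ← hLl]
  obtain ⟨O, hO⟩ : ∃ O, O = toC Om := ⟨_, rfl⟩
  have hOt : O.transpose = -O := by
    rw [hO]
    ext c d
    have h1 : Om d c = - Om c d := congrFun (congrFun hP.alt c) d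
    show ((Om d c : ℝ) : ℂ) = - ((Om c d : ℝ) : ℂ)
    rw [h1]
    push_cast
    rfl
  have hOO : O * toC Om⁻¹ * O = O := by
    rw [hO, ← Pool.Agent.Helper94.RK.toC_mul, ← Pool.Agent.Helper94.RK.toC_mul,
      Matrix.mul_nonsing_inv Om (Ne.isUnit hOd), Matrix.one_mul]
  have hOc : cj O = O := by rw [hO, Pool.Agent.Helper94.RK.cj_toC]
  rw [← hO] at hσj ⊢
  -- `P O Ljᵀ = - σ_j`
  have k1 : P * O * Lj.transpose = - (Lj * O * P.transpose) := by
    rw [← hσj, Matrix.transpose_mul, Matrix.transpose_mul, Matrix.transpose_transpose, hOt,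
      Matrix.neg_mul, Matrix.mul_neg, neg_neg, Matrix.mul_assoc]
  have k2 : cj Ll * O * (cj P).transpose = cj (Ll * O * P.transpose) := by
    rw [Pool.Agent.Helper94.RK.cj_mul, Pool.Agent.Helper94.RK.cj_mul, hOc,
      Pool.Agent.Helper94.RK.cj_transpose]
  have k3 : cj Ll * O * Lj.transpose = κ • ((cj Ll * O * P.transpose) * H *
      (cj P * O * Lj.transpose) + cj (Ll * O * P.transpose) * H.transpose *
      (Lj * O * P.transpose)) := by
    have h1 : cj Ll * O * Lj.transpose = cj Ll * (O * toC Om⁻¹ * O) * Lj.transpose := by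
      rw [hOO]
    have h2 : Lj * O * P.transpose = - (P * O * Lj.transpose) := by rw [k1, neg_neg]
    rw [h1, hOinv, ← k2, h2]
    simp only [Matrix.mul_smul, Matrix.smul_mul, Matrix.mul_sub, Matrix.sub_mul, Matrix.mul_neg,
      Matrix.mul_assoc]
    rw [sub_eq_add_neg]
  have hκ2 : 4 * κ * κ = -1 := by
    rw [hκ]
    field_simp
    rw [Complex.I_sq]
    ring
  rw [k3]
  simp only [Matrix.mul_smul, Matrix.smul_mul, Matrix.trace_smul, smul_smul, Matrix.mul_add,
    Matrix.trace_add, smul_eq_mul]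
  obtain ⟨S, hS⟩ : ∃ S, S = Lj * O * P.transpose := ⟨_, rfl⟩
  obtain ⟨T, hT⟩ : ∃ T, T = cj (Ll * O * P.transpose) := ⟨_, rfl⟩
  obtain ⟨X, hX⟩ : ∃ X, X = cj Ll * O * P.transpose := ⟨_, rfl⟩
  obtain ⟨Y, hY⟩ : ∃ Y, Y = cj P * O * Lj.transpose := ⟨_, rfl⟩
  rw [← hS, ← hT, ← hX, ← hY]
  have t1 : (H * (X * H * Y)).trace = (H * Y * H * X).trace := by
    have a1 : H * (X * H * Y) = (H * X) * (H * Y) := by simp only [Matrix.mul_assoc]
    have a2 : H * Y * H * X = (H * Y) * (H * X) := by simp only [Matrix.mul_assoc]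
    rw [a1, a2, Matrix.trace_mul_comm]
  have t2 : (H * (T * H.transpose * S)).trace = (S * H * T * H.transpose).trace := by
    rw [← Matrix.mul_assoc, Matrix.trace_mul_comm, ← Matrix.mul_assoc, ← Matrix.mul_assoc]
  rw [t1, t2]
  linear_combination ((S * H * T * H.transpose).trace) * hκ2

end Pool.Agent.Helper29.RK
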