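import Pool.Agent.Helper95.RK.GoalsB
import Pool.Agent.Helper95.RK.Basics
import Pool.Agent.Helper29.RK.LDET

/-! # RK packet SMQ: smoothness and first consequences of the local situation -/

open Complex Metric Set Filter Topology
open scoped ContDiff ComplexConjugate ComplexOrder Manifold Matrix

namespace Pool.Agent.Helper29.RK

open Pool.Agent.Helper95.Lin Pool.Agent.Helper16.Abund Pool.Agent.Helper10.SP
open Pool.Agent.Helper95.RK
open Pool.Agent.Helper93.RK (contDiffOn_inv)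

section aux

variable {n : ℕ}

theorem csm_conj {W : Set (Cn n)} {f : Cn n → ℂ} (hf : ContDiffOn ℝ ∞ f W) :
    ContDiffOn ℝ ∞ (fun y => conj (f y)) W := by
  have h1 : ContDiff ℝ ∞ (fun z : ℂ => conj z) := Complex.conjCLE.contDiff
  exact h1.comp_contDiffOn hf

theorem cd_congrOn {W : Set (Cn n)} (hW : IsOpen W) {f g : Cn n → ℂ} (h : ∀ y ∈ W, f y = g y)
    {x : Cn n} (hx : x ∈ W) (l : Fin n) : cd l f x = cd l g x :=
  cd_congr (by filter_upwards [hW.mem_nhds hx] with y hy using h y hy) l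

theorem cdb_congrOn {W : Set (Cn n)} (hW : IsOpen W) {f g : Cn n → ℂ} (h : ∀ y ∈ W, f y = g y)
    {x : Cn n} (hx : x ∈ W) (l : Fin n) : cdb l f x = cdb l g x :=
  cdb_congr (by filter_upwards [hW.mem_nhds hx] with y hy using h y hy) l

theorem qf_hermi (A : Matrix (Fin n) (Fin n) ℂ) (y : Cn n) :
    star y ⬝ᵥ (A *ᵥ y) = hermi A (fun i => conj (y i)) (fun i => conj (y i)) := by
  unfold hermi Matrix.mulVec dotProduct
  refine Finset.sum_congr rfl fun i _ => ?_
  rw [Finset.mul_sum]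
  refine Finset.sum_congr rfl fun j _ => ?_
  rw [Pi.star_apply, Complex.conj_conj]
  show conj (y i) * _ = _
  ring

theorem LM_psd (hLMF : S_LMF) {W : Set (Cn n)} (hW : IsOpen W) {Φ : Cn n → ℝ}
    (hΦ : ContDiffOn ℝ ∞ Φ W) (hn : ∀ x ∈ W, ∀ e, 0 ≤ lev Φ x e) {x : Cn n} (hx : x ∈ W) :
    (LM Φ x).PosSemidef := by
  obtain ⟨-, h2, h3, -⟩ := hLMF W hW Φ hΦ
  refine Matrix.PosSemidef.of_dotProduct_mulVec_nonneg (h2 x hx) fun y => ?_
  rw [qf_hermi, ← h3 x hx]
  exact_mod_cast hn x hx _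

theorem LM_ker (hLMF : S_LMF) {W : Set (Cn n)} (hW : IsOpen W) {Φ : Cn n → ℝ}
    (hΦ : ContDiffOn ℝ ∞ Φ W) (hn : ∀ x ∈ W, ∀ e, 0 ≤ lev Φ x e) {x : Cn n} (hx : x ∈ W)
    (m : Fin n) (h0 : lev Φ x (Pi.single m 1) = 0) (j : Fin n) :
    LM Φ x m j = 0 ∧ LM Φ x j m = 0 := by
  obtain ⟨-, h2, h3, -⟩ := hLMF W hW Φ hΦ
  have hpsd := LM_psd hLMF hW hΦ hn hx
  have h4 : star (Pi.single m 1 : Cn n) ⬝ᵥ (LM Φ x *ᵥ Pi.single m 1) = 0 := by
    rw [qf_hermi]
    have e : (fun i => conj ((Pi.single m 1 : Cn n) i)) = Pi.single m (1 : ℂ) := by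
      funext i
      by_cases hi : i = m
      · subst hi; simp
      · simp [hi]
    rw [e, ← h3 x hx, h0]
    simp
  have h5 : LM Φ x *ᵥ Pi.single m 1 = 0 := (hpsd.dotProduct_mulVec_zero_iff _).1 h4
  have h6 : ∀ j, LM Φ x j m = 0 := by
    intro j
    have h7 := congrFun h5 j
    simpa using h7
  refine ⟨?_, h6 j⟩
  have h7 := (h2 x hx).apply m j
  rw [← h7, h6 j, star_zero]

end aux

theorem smq (hWIRT : S_WIRT) (hLMF : S_LMF) : S_SMQ := by
  intro b k W Q Φ h
  have hW := h.isOpen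
  have hF : FlatG W (gq Q) Φ := h.flat
  have hgs : ∀ i j, ContDiffOn ℝ ∞ (fun x => gq Q x i j) W := hF.smooth
  have hgp : ∀ x ∈ W, (gq Q x).PosDef := hF.posDef
  have hgd : ∀ x ∈ W, 0 < (gq Q x).det.re ∧ (gq Q x).det.im = 0 := by
    intro z hz
    have h1 := (hgp z hz).det_pos
    rw [Complex.lt_def] at h1
    exact ⟨h1.1, h1.2.symm⟩
  have hgd0 : ∀ x ∈ W, (gq Q x).det ≠ 0 := by
    intro z hz h0
    have h1 := (hgd z hz).1
    rw [h0] at h1
    simp at h1
  have hgi : ∀ i j, ContDiffOn ℝ ∞ (fun x => (gq Q x)⁻¹ i j) W := fun i j =>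
    contDiffOn_inv hgs hgd0 i j
  obtain ⟨hLs, hLh, hLl, hLc⟩ := hLMF W hW Φ h.smP
  have hTs : ∀ a c, ContDiffOn ℝ ∞ (fun x => Thq Φ x a c) W := fun a c => hLs _ _
  have hTp : ∀ x ∈ W, (Thq Φ x).PosDef := by
    intro x hx
    refine Matrix.PosDef.of_dotProduct_mulVec_pos ((hLh x hx).submatrix _) fun y hy => ?_
    rw [qf_hermi]
    obtain ⟨e, he⟩ : ∃ e : Cn b, e = fun i => conj (y i) := ⟨_, rfl⟩
    rw [← he]
    have h1 : hermi (Thq Φ x) e e = hermi (LM Φ x) (ptK (k := k) e 0) (ptK e 0) := by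
      unfold hermi
      rw [Fin.sum_univ_add]
      simp only [Fin.sum_univ_add, ptK_castAdd, ptK_natAdd]
      simp [Thq]
    have h2 : e ≠ 0 := by
      intro h0
      apply hy
      funext i
      have h3 : e i = 0 := by rw [h0]; rfl
      rw [he] at h3
      have h4 : conj (y i) = 0 := h3
      simpa using h4
    have h3 : lev Φ x (ptK e 0) ≠ 0 := by
      intro h0
      rw [h.ker x hx, base_ptK] at h0
      exact h2 h0
    rw [h1, ← hLl x hx]
    have h4 : 0 < lev Φ x (ptK e 0) := lt_of_le_of_ne (h.nonneg x hx _) (Ne.symm h3)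
    exact_mod_cast h4
  have hTd0 : ∀ x ∈ W, (Thq Φ x).det ≠ 0 := by
    intro z hz h0
    have h1 := (hTp z hz).det_pos
    rw [h0] at h1
    exact lt_irrefl _ h1
  have hTi : ∀ a c, ContDiffOn ℝ ∞ (fun x => (Thq Φ x)⁻¹ a c) W := fun a c =>
    contDiffOn_inv hTs hTd0 a c
  have hps : ∀ a i, ContDiffOn ℝ ∞ (psq Q a i) W := fun a i =>
    ContDiffOn.sum fun l _ => (h.smQ _ _).mul (hgi l i)
  have hpc : ∀ a i, ContDiffOn ℝ ∞ (fun y => conj (psq Q a i y)) W := fun a i =>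
    csm_conj (hps a i)
  have hch : ∀ i j l, ContDiffOn ℝ ∞ (fun x => chrM (gq Q) i x j l) W := by
    intro i j l
    have e : (fun x => chrM (gq Q) i x j l) = fun x => ∑ m,
        cd (Fin.natAdd b i) (fun y => gq Q y j m) x * (gq Q x)⁻¹ m l := by
      funext x
      rfl
    rw [e]
    exact ContDiffOn.sum fun m _ => (Wirt.cd_smooth hW (hgs j m) _).mul (hgi m l)
  have hKK : ∀ a j l, ContDiffOn ℝ ∞ (fun x => KKq Q a x j l) W := by
    intro a j l
    have e : (fun x => KKq Q a x j l) = fun x =>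
        (cdb (Fin.castAdd k a) (fun y => gq Q y j l) x -
          ∑ i, conj (psq Q a i x) * cdb (Fin.natAdd b i) (fun y => gq Q y j l) x) -
        ∑ m, gq Q x j m * cdb (Fin.natAdd b l) (fun y => conj (psq Q a m y)) x := by
      funext x
      rfl
    rw [e]
    refine ((Wirt.cdb_smooth hW (hgs j l) _).sub (ContDiffOn.sum fun i _ =>
      (hpc a i).mul (Wirt.cdb_smooth hW (hgs j l) _))).sub (ContDiffOn.sum fun m _ =>
      (hgs j m).mul (Wirt.cdb_smooth hW (hpc a m) _))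
  have hAA : ∀ a i j, ContDiffOn ℝ ∞ (fun x => AAq Q a x i j) W := by
    intro a i j
    have e : (fun x => AAq Q a x i j) = fun x =>
        ∑ m, gq Q x j m * cd (Fin.natAdd b i) (fun y => conj (psq Q a m y)) x := by
      funext x
      rfl
    rw [e]
    exact ContDiffOn.sum fun m _ => (hgs j m).mul (Wirt.cd_smooth hW (hpc a m) _)
  have hBB : ∀ a i j l, ContDiffOn ℝ ∞ (fun x => BBq Q a i x j l) W := fun a i j l =>
    Wirt.cdb_smooth hW (hch i j l) _
  refine ⟨⟨fun x hx => ⟨hgp x hx, (hgp x hx).inv, hTp x hx, (hTp x hx).inv⟩,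
    fun i j => ⟨hgs i j, hgi i j⟩, fun a c => ⟨hTs a c, hTi a c⟩, hps, hch, hKK, hAA, hBB⟩, ?_⟩
  -- second part
  have hker : ∀ x ∈ W, ∀ (i : Fin k) (j : Fin (b + k)), LM Φ x (Fin.natAdd b i) j = 0 ∧
      LM Φ x j (Fin.natAdd b i) = 0 := by
    intro x hx i j
    refine LM_ker hLMF hW h.smP h.nonneg hx _ ?_ j
    rw [h.ker x hx]
    exact base_ef i
  have hsymch : ∀ y ∈ W, ∀ i j m, chrM (gq Q) i y j m = chrM (gq Q) j y i m := by
    intro y hy i j m
    show ∑ r, cd (Fin.natAdd b i) (fun y => gq Q y j r) y * (gq Q y)⁻¹ r m =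
      ∑ r, cd (Fin.natAdd b j) (fun y => gq Q y i r) y * (gq Q y)⁻¹ r m
    refine Finset.sum_congr rfl fun r _ => ?_
    rw [hF.kah y hy j r i]
  have htr : ∀ y ∈ W, ∀ i, (chrM (gq Q) i y).trace =
      cd (Fin.natAdd b i) (fun y => ((Φ y : ℝ) : ℂ)) y := by
    intro y hy i
    rw [← hF.vol y hy i]
    have h1 : cd (Fin.natAdd b i) (fun y => ((Real.log (gq Q y).det.re : ℝ) : ℂ)) y =
      ((gq Q y)⁻¹ * Matrix.of fun p q => fderiv ℝ (fun y => gq Q y p q) y
        (Pi.single (Fin.natAdd b i) 1)).trace -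
      I * ((gq Q y)⁻¹ * Matrix.of fun p q => fderiv ℝ (fun y => gq Q y p q) y
        (Pi.single (Fin.natAdd b i) I)).trace := by
      rw [← fderiv_logdet hW hgs hgd hy, ← fderiv_logdet hW hgs hgd hy]
      rfl
    rw [h1]
    unfold chrM
    rw [Matrix.trace_mul_comm]
    simp only [Matrix.trace, Matrix.diag, Matrix.mul_apply, Matrix.of_apply, cd, mul_sub,
      Finset.sum_sub_distrib, Finset.mul_sum]
    congr 1
    refine Finset.sum_congr rfl fun p _ => Finset.sum_congr rfl fun q _ => ?_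
    ring
  intro x hx
  refine ⟨hker x hx, ?_, ?_, ?_, ?_, ?_⟩
  · intro i a c
    constructor
    · have h1 : cd (Fin.natAdd b i) (fun y => Thq Φ y a c) x =
          cd (Fin.castAdd k a) (fun y => LM Φ y (Fin.natAdd b i) (Fin.castAdd k c)) x :=
        (hLc x hx (Fin.castAdd k a) (Fin.castAdd k c) (Fin.natAdd b i)).1
      rw [h1, cd_congrOn hW (g := fun _ => 0) (fun y hy => (hker y hy i _).1) hx, cd_const]
    · have h1 : cdb (Fin.natAdd b i) (fun y => Thq Φ y a c) x =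
          cdb (Fin.castAdd k c) (fun y => LM Φ y (Fin.castAdd k a) (Fin.natAdd b i)) x :=
        (hLc x hx (Fin.castAdd k a) (Fin.castAdd k c) (Fin.natAdd b i)).2
      rw [h1, cdb_congrOn hW (g := fun _ => 0) (fun y hy => (hker y hy i _).2) hx, cdb_const]
  · intro i j l
    unfold chrM
    rw [Matrix.nonsing_inv_mul_cancel_right _ _ (isUnit_iff_ne_zero.2 (hgd0 x hx))]
    rfl
  · intro i j l m
    exact ⟨hF.flat x hx i j l m, hsymch x hx i j m⟩
  · intro a i
    have h1 : (BBq Q a i x).trace = cdb (Fin.castAdd k a) (fun y => (chrM (gq Q) i y).trace) x := by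
      show ∑ j, cdb (Fin.castAdd k a) (fun y => chrM (gq Q) i y j j) x = _
      rw [← cdb_sum Finset.univ fun j _ => Wirt.dAt hW (hch i j j) hx]
      rfl
    have hΦc : ContDiffOn ℝ ∞ (fun y => ((Φ y : ℝ) : ℂ)) W :=
      Complex.ofRealCLM.contDiff.comp_contDiffOn h.smP
    rw [h1, cdb_congrOn hW (fun y hy => htr y hy i) hx]
    have h2 := ((hWIRT W hW _ _ hΦc hΦc).2.2.2.2.1 (Fin.natAdd b i) (Fin.castAdd k a) x hx).2.2
    have h3 : cdb (Fin.castAdd k a) (fun y => cd (Fin.natAdd b i)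
        (fun y => ((Φ y : ℝ) : ℂ)) y) x = LM Φ x (Fin.natAdd b i) (Fin.castAdd k a) := h2.symm
    rw [h3, (hker x hx i _).1]
  · intro a i j l m
    constructor
    · have h2 := ((hWIRT W hW _ _ (hch i j m) (hch i j m)).2.2.2.2.1 (Fin.natAdd b l)
        (Fin.castAdd k a) x hx).2.1
      have h3 : cdb (Fin.natAdd b l) (fun y => BBq Q a i y j m) x =
        cdb (Fin.natAdd b l) (cdb (Fin.castAdd k a) (fun y => chrM (gq Q) i y j m)) x := rfl
      rw [h3, h2, cdb_congrOn hW (g := fun _ => 0) (fun y hy => hF.flat y hy i j l m) hx,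
        cdb_const]
    · exact cdb_congrOn hW (fun y hy => hsymch y hy i j m) hx _

end Pool.Agent.Helper29.RK
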